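import Pool.Agent.Helper42.RD.Goals2
import Pool.Agent.Helper79.RP.HIL1

/-! RD: E_GOO, first part: Galois theory. -/

namespace Pool.Agent.Helper79.RD

open Polynomial Module

section gal

variable {K Ω : Type} [Field K] [Field Ω] [Algebra K Ω]

theorem eq_on_sup {M N : IntermediateField K Ω} {f g : Ω ≃ₐ[K] Ω} (hM : ∀ x ∈ M, f x = g x)
    (hN : ∀ x ∈ N, f x = g x) : ∀ x ∈ M ⊔ N, f x = g x := by
  have h1 : g⁻¹ * f ∈ (M ⊔ N).fixingSubgroup := by
    rw [IntermediateField.fixingSubgroup_sup, Subgroup.mem_inf]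
    constructor
    · rw [IntermediateField.mem_fixingSubgroup_iff]
      intro x hx
      change g.symm (f x) = x
      rw [hM x hx, AlgEquiv.symm_apply_apply]
    · rw [IntermediateField.mem_fixingSubgroup_iff]
      intro x hx
      change g.symm (f x) = x
      rw [hN x hx, AlgEquiv.symm_apply_apply]
  intro x hx
  rw [IntermediateField.mem_fixingSubgroup_iff] at h1
  have h2 : g.symm (f x) = x := h1 x hx
  rw [AlgEquiv.symm_apply_eq] at h2
  exact h2

theorem mem_of_fixed [IsGalois K Ω] {F : IntermediateField K Ω} {s : Ω}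
    (h : ∀ g : Ω ≃ₐ[K] Ω, (∀ x ∈ F, g x = x) → g s = s) : s ∈ F := by
  rw [← InfiniteGalois.fixedField_fixingSubgroup F, IntermediateField.mem_fixedField_iff]
  intro g hg
  exact h g fun x hx => (IntermediateField.mem_fixingSubgroup_iff _ _).1 hg x hx

theorem pow_fix [Normal K Ω] {N : IntermediateField K Ω} {n : ℕ} (hn : finrank K N ∣ n)
    (h0 : 0 < finrank K N) (hg : IsGalois K N) (g : Ω ≃ₐ[K] Ω) : ∀ y ∈ N, (g ^ n) y = y := by
  have hfin : FiniteDimensional K N := FiniteDimensional.of_finrank_pos h0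
  intro y hy
  have h1 : AlgEquiv.restrictNormalHom N (g ^ n) = 1 := by
    obtain ⟨d, rfl⟩ := hn
    rw [map_pow, ← IsGalois.card_aut_eq_finrank K N, pow_mul, pow_card_eq_one', one_pow]
  have h2 := AlgEquiv.restrictNormalHom_apply N (g ^ n) ⟨y, hy⟩
  rw [h1] at h2
  exact h2.symm

theorem map_mem_normal {N : IntermediateField K Ω} [Normal K N] [Normal K Ω] (g : Ω ≃ₐ[K] Ω) {y : Ω}
    (hy : y ∈ N) : g y ∈ N := by
  have h2 := AlgEquiv.restrictNormalHom_apply N g ⟨y, hy⟩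
  have h3 : g y = ((AlgEquiv.restrictNormalHom N g ⟨y, hy⟩ : N) : Ω) := h2.symm
  rw [h3]
  exact (AlgEquiv.restrictNormalHom N g ⟨y, hy⟩ : N).2

theorem exists_ext [Normal K Ω] {M N : IntermediateField K Ω} (hM0 : 0 < finrank K M)
    (hN0 : 0 < finrank K N) (hM : IsGalois K M) (hN : IsGalois K N)
    (hc : (finrank K M).Coprime (finrank K N)) (δ : M ≃ₐ[K] M) :
    ∃ g : Ω ≃ₐ[K] Ω, (∀ x : M, g (x : Ω) = (δ x : M)) ∧ ∀ y ∈ N, g y = y := by
  have hfin : FiniteDimensional K M := FiniteDimensional.of_finrank_pos hM0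
  obtain ⟨n, hn1, hn2⟩ := Nat.chineseRemainder hc 1 0
  have hdvd : finrank K N ∣ n := (Nat.modEq_zero_iff_dvd).1 hn2
  let g₀ : Ω ≃ₐ[K] Ω := δ.liftNormal Ω
  have hg₀ : ∀ x : M, g₀ (x : Ω) = (δ x : M) := fun x => δ.liftNormal_commutes Ω x
  have hpow : ∀ (i : ℕ) (x : M), (g₀ ^ i) (x : Ω) = ((δ ^ i) x : M) := by
    intro i
    induction i with
    | zero => intro x; rfl
    | succ i ih =>
      intro x
      rw [pow_succ', pow_succ', AlgEquiv.mul_apply, AlgEquiv.mul_apply, ih, hg₀]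
  refine ⟨g₀ ^ n, fun x => ?_, pow_fix hdvd hN0 hN g₀⟩
  rw [hpow]
  have h1 : δ ^ n = δ := by
    have h2 : n ≡ 1 [MOD orderOf δ] := by
      refine Nat.ModEq.of_dvd ?_ hn1
      rw [← IsGalois.card_aut_eq_finrank K M]
      exact orderOf_dvd_natCard δ
    have h3 := (pow_eq_pow_iff_modEq (x := δ)).2 h2
    rwa [pow_one] at h3
  rw [h1]

/-- restriction -/
noncomputable def res {F : IntermediateField K Ω} (g : Ω ≃ₐ[K] Ω) (h1 : ∀ x ∈ F, g x ∈ F)
    (h2 : ∀ x ∈ F, g.symm x ∈ F) : F ≃ₐ[K] F :=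
  AlgEquiv.ofAlgHom
    { toFun := fun x => ⟨g x, h1 x x.2⟩
      map_one' := Subtype.ext (map_one g)
      map_mul' := fun x y => Subtype.ext (map_mul g _ _)
      map_zero' := Subtype.ext (map_zero g)
      map_add' := fun x y => Subtype.ext (map_add g _ _)
      commutes' := fun c => Subtype.ext (g.commutes c) }
    { toFun := fun x => ⟨g.symm x, h2 x x.2⟩
      map_one' := Subtype.ext (map_one g.symm)
      map_mul' := fun x y => Subtype.ext (map_mul g.symm _ _)
      map_zero' := Subtype.ext (map_zero g.symm)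
      map_add' := fun x y => Subtype.ext (map_add g.symm _ _)
      commutes' := fun c => Subtype.ext (g.symm.commutes c) }
    (by ext x; exact g.apply_symm_apply x)
    (by ext x; exact g.symm_apply_apply x)

theorem res_coe {F : IntermediateField K Ω} (g : Ω ≃ₐ[K] Ω) (h1 : ∀ x ∈ F, g x ∈ F)
    (h2 : ∀ x ∈ F, g.symm x ∈ F) (x : F) : ((res g h1 h2 x : F) : Ω) = g x := rfl

theorem map_sup_mem {E N : IntermediateField K Ω} [Normal K N] [Normal K Ω] (g : Ω ≃ₐ[K] Ω)
    (hE : ∀ x ∈ E, g x ∈ E) : ∀ x ∈ E ⊔ N, g x ∈ E ⊔ N := by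
  have h1 : E ⊔ N ≤ (E ⊔ N).comap (g : Ω →ₐ[K] Ω) := by
    refine sup_le ?_ ?_
    · intro x hx
      exact (le_sup_left : E ≤ E ⊔ N) (hE x hx)
    · intro x hx
      exact (le_sup_right : N ≤ E ⊔ N) (map_mem_normal g hx)
  intro x hx
  exact h1 hx

/-- the degree of `M ⊔ N` over `M` -/
theorem finrank_sup_coprime {M N : IntermediateField K Ω} (hM0 : 0 < finrank K M)
    (hN0 : 0 < finrank K N) (hc : (finrank K M).Coprime (finrank K N)) :
    finrank K (M ⊔ N : IntermediateField K Ω) = finrank K M * finrank K N := by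
  have hfM : FiniteDimensional K M := FiniteDimensional.of_finrank_pos hM0
  have hfN : FiniteDimensional K N := FiniteDimensional.of_finrank_pos hN0
  have h1 := IntermediateField.finrank_sup_le M N
  have h2 : finrank K M ∣ finrank K (M ⊔ N : IntermediateField K Ω) :=
    IntermediateField.finrank_dvd_of_le_right le_sup_left
  have h3 : finrank K N ∣ finrank K (M ⊔ N : IntermediateField K Ω) :=
    IntermediateField.finrank_dvd_of_le_right le_sup_right
  have h4 := hc.mul_dvd_of_dvd_of_dvd h2 h3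
  have h5 : 0 < finrank K (M ⊔ N : IntermediateField K Ω) := finrank_pos
  exact le_antisymm h1 (Nat.le_of_dvd h5 h4)

end gal

section kummer

variable {K Ω : Type} [Field K] [Field Ω]

theorem no_root {M₁ : Type} [Field M₁] {p : ℕ} (hp : p.Prime) {ε : M₁} (hε : IsPrimitiveRoot ε p)
    (j : M₁ →+* Ω) {s : Ω} {a : M₁} (ha : a ≠ 0) (hs : s ^ p = j a) (hns : ¬ ∃ y : M₁, j y = s) :
    ∀ b : M₁, b ^ p ≠ a := by
  intro b hb
  have hs0 : s ≠ 0 := by
    rintro rfl
    rw [zero_pow hp.ne_zero] at hs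
    exact ha (j.injective (by rw [← hs, map_zero]))
  have hb0 : j b ≠ 0 := by
    intro h
    rw [_root_.map_eq_zero] at h
    rw [h, zero_pow hp.ne_zero] at hb
    exact ha hb.symm
  have h1 : (s / j b) ^ p = 1 := by
    rw [div_pow, hs, ← map_pow, hb, div_self]
    rw [← hb, map_pow]
    exact pow_ne_zero _ hb0
  have h2 : IsPrimitiveRoot (j ε) p := hε.map_of_injective j.injective
  have hne : NeZero p := ⟨hp.ne_zero⟩
  obtain ⟨i, _, hi⟩ := h2.eq_pow_of_pow_eq_one h1
  apply hns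
  refine ⟨ε ^ i * b, ?_⟩
  rw [map_mul, map_pow, hi, div_mul_cancel₀ _ hb0]

theorem exists_kummer {M₁ : Type} [Field M₁] [Algebra M₁ Ω] [Normal M₁ Ω] {p : ℕ} (hp : p.Prime)
    {ε : M₁} (hε : IsPrimitiveRoot ε p) {s : Ω} {a : M₁} (hs : s ^ p = algebraMap M₁ Ω a)
    (hr : ∀ b : M₁, b ^ p ≠ a) :
    minpoly M₁ s = X ^ p - C a ∧ ∃ g : Ω ≃ₐ[M₁] Ω, g s = algebraMap M₁ Ω ε * s := by
  have hirr := X_pow_sub_C_irreducible_of_prime hp hr
  have hmon : (X ^ p - C a : M₁[X]).Monic := monic_X_pow_sub_C a hp.ne_zero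
  have h1 : minpoly M₁ s = X ^ p - C a :=
    (minpoly.eq_of_irreducible_of_monic hirr (by simp [hs]) hmon).symm
  have h2 : minpoly M₁ (algebraMap M₁ Ω ε * s) = X ^ p - C a :=
    (minpoly.eq_of_irreducible_of_monic hirr (by
      rw [map_sub, map_pow, aeval_X, aeval_C, mul_pow, ← map_pow, hε.pow_eq_one, map_one, one_mul,
        hs, sub_self]) hmon).symm
  have h3 : IsConjRoot M₁ (algebraMap M₁ Ω ε * s) s := by
    rw [IsConjRoot, h1, h2]
  obtain ⟨g, hg⟩ := isConjRoot_iff_exists_algEquiv.1 h3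
  exact ⟨h1, g, hg⟩

end kummer

end Pool.Agent.Helper79.RD
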